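import Pool.Agent.Helper63.FQ.Null
import Pool.Agent.Helper84.GD.Defs
import Pool.Agent.Helper35.TZ.Conn
import Pool.Agent.Helper66.BD.Conn

/-!
# Project FQ (MP_0f6f3f_an): the big cells of the nodes are Haar conull

`autC_open_top`: the open subgroups of `autC b` are trivial. `null_entry`: the matrix coefficients `rho j g i i'` of the node representations vanish only on Haar null sets (irreducibility assumed).
`ae_cell`: Haar-almost every `g` is a product `x l y` as in `GD.cell`.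
-/

set_option autoImplicit false
set_option linter.unusedSectionVars false

open MeasureTheory Measure Topology Filter Set Matrix

namespace Pool.Agent.Helper63.FQ

open Pool.Agent.Helper84.GDL
open Pool.Agent.Helper35.TZ (autC component_le)
open Pool.Agent.Helper66.BD (isAdj_component)
open Pool.Agent.Helper96.SA

section Gen

variable {𝔾 : Type} [Group 𝔾] [TopologicalSpace 𝔾] [IsTopologicalGroup 𝔾] [MeasurableSpace 𝔾] [BorelSpace 𝔾]
  [SecondCountableTopology 𝔾] [LocallyCompactSpace 𝔾] [T2Space 𝔾] (μ : Measure 𝔾) [μ.IsHaarMeasure]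
  {ι : Type} [Fintype ι] [DecidableEq ι] (D : GD 𝔾 ι)

/-- The node representation as a representation on the space of vectors. -/
noncomputable def rhoV (l : ι) : 𝔾 →* Module.End ℝ (Fin (D.d l + 1) → ℝ) :=
  (Matrix.toLinAlgEquiv' : Matrix (Fin (D.d l + 1)) (Fin (D.d l + 1)) ℝ ≃ₐ[ℝ] _).toRingEquiv.toRingHom.toMonoidHom.comp (D.rho l)

theorem rhoV_apply (l : ι) (g : 𝔾) (v : Fin (D.d l + 1) → ℝ) : rhoV D l g v = D.rho l g *ᵥ v := rfl

/-- **Matrix coefficients vanish only on null sets.** -/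
theorem null_entry (hG : ∀ H : Subgroup 𝔾, IsOpen (H : Set 𝔾) → H = ⊤) (j : ι)
    (hirr : ∀ W : Submodule ℝ (Fin (D.d j + 1) → ℝ), (∀ g : 𝔾, ∀ w ∈ W, D.rho j g *ᵥ w ∈ W) → W = ⊥ ∨ W = ⊤)
    (i i' : Fin (D.d j + 1)) : μ {g | D.rho j g i i' = 0} = 0 := by
  have h := null_coeff μ hG (rhoV D j)
    (fun v => by
      have h1 : (fun g => rhoV D j g v) = fun g => D.rho j g *ᵥ v := rfl
      rw [h1]
      exact (D.rho_cont j).matrix_mulVec continuous_const)
    (fun W hW => hirr W fun g w hw => hW g hw)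
    (e := Pi.single i' (1 : ℝ)) (fun h0 => by
      have h1 := congrFun h0 i'
      simp at h1)
    (φ := LinearMap.proj i) (fun h0 => by
      have h1 := congrArg (fun f : (Fin (D.d j + 1) → ℝ) →ₗ[ℝ] ℝ => f (Pi.single i (1 : ℝ))) h0
      simp at h1)
  refine measure_mono_null (fun g hg => ?_) h
  change (rhoV D j g (Pi.single i' (1 : ℝ))) i = 0
  rw [rhoV_apply, mulVec_single_one]
  exact hg

/-- Coordinates of `rho j g v`, `v ≠ 0`. -/
theorem null_mulVec (hG : ∀ H : Subgroup 𝔾, IsOpen (H : Set 𝔾) → H = ⊤) (j : ι)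
    (hirr : ∀ W : Submodule ℝ (Fin (D.d j + 1) → ℝ), (∀ g : 𝔾, ∀ w ∈ W, D.rho j g *ᵥ w ∈ W) → W = ⊥ ∨ W = ⊤)
    {v : Fin (D.d j + 1) → ℝ} (hv : v ≠ 0) (i : Fin (D.d j + 1)) : μ {g | (D.rho j g *ᵥ v) i = 0} = 0 := by
  refine null_coeff μ hG (rhoV D j)
    (fun v => by
      have h1 : (fun g => rhoV D j g v) = fun g => D.rho j g *ᵥ v := rfl
      rw [h1]
      exact (D.rho_cont j).matrix_mulVec continuous_const)
    (fun W hW => hirr W fun g w hw => hW g hw) hv (φ := LinearMap.proj i) (fun h0 => by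
      have h1 := congrArg (fun f : (Fin (D.d j + 1) → ℝ) →ₗ[ℝ] ℝ => f (Pi.single i (1 : ℝ))) h0
      simp at h1)

/-- Coordinates of `v rho j g`, `v ≠ 0`. -/
theorem null_vecMul (hG : ∀ H : Subgroup 𝔾, IsOpen (H : Set 𝔾) → H = ⊤) (j : ι)
    (hirr : ∀ W : Submodule ℝ (Fin (D.d j + 1) → ℝ), (∀ g : 𝔾, ∀ w ∈ W, D.rho j g *ᵥ w ∈ W) → W = ⊥ ∨ W = ⊤)
    {v : Fin (D.d j + 1) → ℝ} (hv : v ≠ 0) (i : Fin (D.d j + 1)) : μ {g | (v ᵥ* D.rho j g) i = 0} = 0 := by
  have h := null_coeff μ hG (rhoV D j)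
    (fun v => by
      have h1 : (fun g => rhoV D j g v) = fun g => D.rho j g *ᵥ v := rfl
      rw [h1]
      exact (D.rho_cont j).matrix_mulVec continuous_const)
    (fun W hW => hirr W fun g w hw => hW g hw)
    (e := Pi.single i (1 : ℝ)) (fun h0 => by
      have h1 := congrFun h0 i
      simp at h1)
    (φ := dotProductBilin ℝ ℝ v) (fun h0 => hv (funext fun k => by
      have h1 := congrArg (fun f : (Fin (D.d j + 1) → ℝ) →ₗ[ℝ] ℝ => f (Pi.single k (1 : ℝ))) h0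
      change v ⬝ᵥ Pi.single k (1 : ℝ) = 0 at h1
      rw [dotProduct_single, mul_one] at h1
      exact h1))
  refine measure_mono_null (fun g hg => ?_) h
  change v ⬝ᵥ rhoV D j g (Pi.single i (1 : ℝ)) = 0
  rw [rhoV_apply, dotProduct_mulVec, dotProduct_single, mul_one]
  exact hg

/-- **The big cell of a node is conull.** -/
theorem ae_cell (hG : ∀ H : Subgroup 𝔾, IsOpen (H : Set 𝔾) → H = ⊤) (j : ι)
    (hirr : ∀ W : Submodule ℝ (Fin (D.d j + 1) → ℝ), (∀ g : 𝔾, ∀ w ∈ W, D.rho j g *ᵥ w ∈ W) → W = ⊥ ∨ W = ⊤) :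
    ∀ᵐ g ∂μ, D.rho j g 0 0 ≠ 0 ∧ ∃ x l y, g = x * l * y ∧
      Tendsto (fun t : ℝ => D.ea (Pi.single j t) * x * D.ea (Pi.single j (-t))) atTop (𝓝 1) ∧
      (∀ t : ℝ, l * D.ea (Pi.single j t) = D.ea (Pi.single j t) * l) ∧
      Tendsto (fun t : ℝ => D.ea (Pi.single j (-t)) * y * D.ea (Pi.single j t)) atTop (𝓝 1) := by
  have h := null_entry μ D hG j hirr 0 0
  filter_upwards [measure_eq_zero_iff_ae_notMem.1 h] with g hg
  have hg0 : D.rho j g 0 0 ≠ 0 := hg
  refine ⟨hg0, ?_⟩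
  obtain ⟨B', -, h2⟩ := D.cell j |D.rho j g 0 0| (abs_pos.2 hg0) {g} isCompact_singleton
  obtain ⟨x, -, l, -, y, -, h3⟩ := h2 g rfl le_rfl
  exact ⟨x, l, y, h3⟩

/-- Irreducibility for a subgroup implies irreducibility. -/
theorem irr_of_SI {Γ : Subgroup 𝔾} (hS : SI D Γ) (j : ι) (W : Submodule ℝ (Fin (D.d j + 1) → ℝ))
    (hW : ∀ g : 𝔾, ∀ w ∈ W, D.rho j g *ᵥ w ∈ W) : W = ⊥ ∨ W = ⊤ :=
  hS j Γ le_rfl (by rw [Subgroup.subgroupOf_self]; infer_instance) W fun γ _ w hw => hW γ w hw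

end Gen

section Dns

variable {𝔾 : Type} [Group 𝔾] [TopologicalSpace 𝔾] [IsTopologicalGroup 𝔾] [SecondCountableTopology 𝔾] [LocallyCompactSpace 𝔾]
  [T2Space 𝔾] {ι : Type} [Fintype ι] [DecidableEq ι] (D : GD 𝔾 ι)

/-- The big cell is dense. -/
theorem dense_entry (hG : ∀ H : Subgroup 𝔾, IsOpen (H : Set 𝔾) → H = ⊤) (j : ι)
    (hirr : ∀ W : Submodule ℝ (Fin (D.d j + 1) → ℝ), (∀ g : 𝔾, ∀ w ∈ W, D.rho j g *ᵥ w ∈ W) → W = ⊥ ∨ W = ⊤)
    (i i' : Fin (D.d j + 1)) : Dense {g | D.rho j g i i' ≠ 0} := by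
  let _ : MeasurableSpace 𝔾 := borel 𝔾
  have _ : BorelSpace 𝔾 := ⟨rfl⟩
  have h := null_entry (Measure.haar : Measure 𝔾) D hG j hirr i i'
  have h1 : Dense ({g | D.rho j g i i' = 0}ᶜ) := by
    refine Measure.dense_of_ae (μ := (Measure.haar : Measure 𝔾)) ?_
    filter_upwards [measure_eq_zero_iff_ae_notMem.1 h] with g hg using hg
  exact h1

end Dns

section Aut

variable {N : ℕ} {L : Type} [LieRing L] [LieAlgebra ℝ L] {θ : L ≃ₗ⁅ℝ⁆ L} {b : Module.Basis (Fin N) ℝ L}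

/-- The identity component has no proper open subgroups. -/
theorem autC_open_top (h : CartanBasis θ b) (H : Subgroup (autC b)) (hH : IsOpen (H : Set (autC b))) : H = ⊤ := by
  have hcl : IsClopen (H : Set (autC b)) := ⟨H.isClosed_of_isOpen hH, hH⟩
  have hone : ∀ x : L, (⟨ex (LinearMap.toMatrix b b (LieAlgebra.ad ℝ L x : L →ₗ[ℝ] L)), (isAdj_component b).exp_ad x⟩ : autC b) ∈ H := by
    intro x
    have hmem : ∀ t : ℝ, ex (t • LinearMap.toMatrix b b (LieAlgebra.ad ℝ L x : L →ₗ[ℝ] L)) ∈ autC b := fun t => by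
      have h1 := (isAdj_component b).exp_ad (t • x)
      have h2 : LinearMap.toMatrix b b (LieAlgebra.ad ℝ L (t • x) : L →ₗ[ℝ] L) =
          t • LinearMap.toMatrix b b (LieAlgebra.ad ℝ L x : L →ₗ[ℝ] L) := by
        rw [map_smul]
        exact map_smul (LinearMap.toMatrix b b) t _
      rw [h2] at h1
      exact h1
    let p : ℝ → autC b := fun t => ⟨ex (t • LinearMap.toMatrix b b (LieAlgebra.ad ℝ L x : L →ₗ[ℝ] L)), hmem t⟩
    have hp : Continuous p := Continuous.subtype_mk (continuous_ex.comp (continuous_id.smul continuous_const)) _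
    have h0 : p 0 = 1 := by
      apply Subtype.ext
      change ex ((0 : ℝ) • _) = 1
      rw [zero_smul, ex_zero]
    have h1 : Set.range p ⊆ (H : Set (autC b)) :=
      (isPreconnected_range hp).subset_isClopen hcl ⟨1, ⟨0, h0⟩, H.one_mem⟩
    have h2 : p 1 ∈ H := h1 ⟨1, rfl⟩
    convert h2 using 1
    apply Subtype.ext
    change ex _ = ex ((1 : ℝ) • _)
    rw [one_smul]
  rw [eq_top_iff]
  rintro ⟨g, hg⟩ -
  have h1 := component_le h hg
  have h2 : ∀ k ∈ Subgroup.closure (Set.range fun x : L => ex (LinearMap.toMatrix b b (LieAlgebra.ad ℝ L x : L →ₗ[ℝ] L))),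
      k ∈ H.map (autC b).subtype := by
    intro k hk
    refine (Subgroup.closure_le _).2 ?_ hk
    rintro _ ⟨x, rfl⟩
    exact ⟨_, hone x, rfl⟩
  obtain ⟨k, hk, hk2⟩ := h2 g h1
  have h3 : k = ⟨g, hg⟩ := Subtype.ext hk2
  rw [← h3]
  exact hk

end Aut

end Pool.Agent.Helper63.FQ
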