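import Mathlib

/-!
# Project FQ (MP_0f6f3f_an): the orbit of a vector meets proper subspaces in a Haar null set

`inter_pos`: for `E` of positive Haar measure, `μ (h E ∩ E) > 0` for `h` near `1`. `null_subspace`: if all the vectors `ρ g e₀` are cyclic for the open subgroups of `G`, then
`{g | ρ g e₀ ∈ W}` is a null set for every proper subspace `W`. `null_of_generates`: the same for `e₀` cyclic if `G` is generated by every neighbourhood of `1`.
-/

set_option autoImplicit false

open MeasureTheory Measure Topology Filter Set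
open scoped Pointwise

namespace Pool.Agent.Helper63.FQ

variable {G : Type} [Group G] [TopologicalSpace G] [IsTopologicalGroup G] [MeasurableSpace G] [BorelSpace G]
  [SecondCountableTopology G] [LocallyCompactSpace G] [T2Space G] (μ : Measure G) [μ.IsHaarMeasure]

/-- A set of positive Haar measure meets its small translates in a set of positive measure. -/
theorem inter_pos {E : Set G} (hE : MeasurableSet E) (h0 : 0 < μ E) : ∀ᶠ h in 𝓝 (1 : G), 0 < μ (h • E ∩ E) := by
  obtain ⟨K, hKE, hK, hK0⟩ := hE.exists_lt_isCompact h0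
  have hKt : μ K ≠ ⊤ := hK.measure_lt_top.ne
  obtain ⟨U, hKU, hU, hUm⟩ := Set.exists_isOpen_lt_add K hKt hK0.ne'
  obtain ⟨V, hV, hVK⟩ := compact_open_separated_mul_left hK hU hKU
  filter_upwards [hV] with h hh
  have h1 : h • K ⊆ U := fun x hx => by
    obtain ⟨k, hk, rfl⟩ := hx
    exact hVK (Set.mul_mem_mul hh hk)
  have h2 : μ (h • K ∪ K) ≤ μ U := measure_mono (union_subset h1 hKU)
  have h3 : μ (h • K ∪ K) + μ (h • K ∩ K) = μ (h • K) + μ K := measure_union_add_inter _ hK.measurableSet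
  rw [measure_smul] at h3
  refine lt_of_lt_of_le (pos_iff_ne_zero.2 fun h4 => ?_) (measure_mono (inter_subset_inter (smul_set_mono hKE) hKE))
  rw [h4, add_zero] at h3
  rw [h3] at h2
  exact absurd h2 (not_le.2 hUm)

section Sub

variable {V : Type} [NormedAddCommGroup V] [NormedSpace ℝ V] [FiniteDimensional ℝ V]

/-- **The orbit of a vector meets proper subspaces in a null set.** -/
theorem null_subspace (ρ : G →* Module.End ℝ V) (e : V) (hc : Continuous fun g => ρ g e)
    (hcyc : ∀ (H : Subgroup G), IsOpen (H : Set G) → ∀ g : G, Submodule.span ℝ {v | ∃ h ∈ H, v = ρ h (ρ g e)} = ⊤)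
    {W : Submodule ℝ V} (hW : W ≠ ⊤) : μ {g | ρ g e ∈ W} = 0 := by
  classical
  by_contra hcon
  have hm : ∀ W : Submodule ℝ V, MeasurableSet {g | ρ g e ∈ W} := fun W =>
    (W.closed_of_finiteDimensional.preimage hc).measurableSet
  obtain ⟨W0, hW0, hmin⟩ := WellFounded.has_min (measure fun W : Submodule ℝ V => Module.finrank ℝ W).wf
    {W | 0 < μ {g | ρ g e ∈ W}} ⟨W, pos_iff_ne_zero.2 hcon⟩
  have hsub : ∀ h g : G, ρ (h * g) e = ρ h (ρ g e) := fun h g => by rw [map_mul]; rfl
  have hinv : ∀ (h : G) (v : V), ρ h (ρ h⁻¹ v) = v := fun h v => by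
    have h1 : ρ (h * h⁻¹) v = v := by rw [mul_inv_cancel, map_one]; rfl
    rw [map_mul] at h1
    exact h1
  have hinv' : ∀ (h : G) (v : V), ρ h⁻¹ (ρ h v) = v := fun h v => by
    have h1 := hinv h⁻¹ v
    rwa [inv_inv] at h1
  -- translates of the set
  have htr : ∀ h : G, h • {g | ρ g e ∈ W0} ∩ {g | ρ g e ∈ W0} = {g | ρ g e ∈ W0.map (ρ h) ⊓ W0} := by
    intro h
    ext g
    constructor
    · rintro ⟨⟨k, hk, rfl⟩, h2⟩
      refine ⟨⟨ρ k e, hk, ?_⟩, h2⟩
      change ρ h (ρ k e) = ρ (h * k) e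
      rw [hsub]
    · rintro ⟨⟨v, hv, hv2⟩, h2⟩
      refine ⟨⟨h⁻¹ * g, ?_, ?_⟩, h2⟩
      · change ρ (h⁻¹ * g) e ∈ W0
        rw [hsub, ← hv2, hinv']
        exact hv
      · change h * (h⁻¹ * g) = g
        group
  have hst : ∀ᶠ h in 𝓝 (1 : G), W0.map (ρ h) = W0 := by
    filter_upwards [inter_pos μ (hm W0) hW0] with h hh
    rw [htr] at hh
    have h1 : ¬ (Module.finrank ℝ (W0.map (ρ h) ⊓ W0 : Submodule ℝ V) < Module.finrank ℝ W0) := hmin _ hh
    have h2 : W0.map (ρ h) ⊓ W0 = W0 := Submodule.eq_of_le_of_finrank_le inf_le_right (not_lt.1 h1)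
    have h3 : W0 ≤ W0.map (ρ h) := inf_eq_right.1 h2
    exact (Submodule.eq_of_le_of_finrank_le h3 (Submodule.finrank_map_le _ _)).symm
  -- the stabiliser
  let H : Subgroup G :=
    { carrier := {h | W0.map (ρ h) = W0}
      one_mem' := by
        change W0.map (ρ 1) = W0
        rw [map_one]
        exact Submodule.map_id W0
      mul_mem' := fun {a b} ha hb => by
        change W0.map (ρ (a * b)) = W0
        rw [map_mul]
        change W0.map ((ρ a).comp (ρ b)) = W0
        rw [Submodule.map_comp, show W0.map (ρ b) = W0 from hb, show W0.map (ρ a) = W0 from ha]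
      inv_mem' := fun {a} ha => by
        change W0.map (ρ a⁻¹) = W0
        have h1 : W0.map (ρ a⁻¹) = (W0.map (ρ a)).map (ρ a⁻¹) := by rw [show W0.map (ρ a) = W0 from ha]
        rw [h1, ← Submodule.map_comp]
        have h2 : (ρ a⁻¹).comp (ρ a) = LinearMap.id := by
          ext v
          exact hinv' a v
        rw [h2, Submodule.map_id] }
  have hH : IsOpen (H : Set G) := Subgroup.isOpen_of_mem_nhds H (g := 1) hst
  obtain ⟨g, hg⟩ : {g | ρ g e ∈ W0}.Nonempty := nonempty_of_measure_ne_zero (pos_iff_ne_zero.1 hW0)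
  have htop : W0 = ⊤ := by
    rw [eq_top_iff, ← hcyc H hH g, Submodule.span_le]
    rintro v ⟨h, hh, rfl⟩
    have h1 : W0.map (ρ h) = W0 := hh
    change ρ h (ρ g e) ∈ W0
    rw [← h1]
    exact ⟨ρ g e, hg, rfl⟩
  apply hW
  have h1 : ¬ (Module.finrank ℝ W < Module.finrank ℝ W0) := hmin W (pos_iff_ne_zero.2 hcon)
  rw [htop, finrank_top] at h1
  exact Submodule.eq_top_of_finrank_eq (le_antisymm (Submodule.finrank_le W) (not_lt.1 h1))

/-- The same if `G` has no proper open subgroup. -/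
theorem null_of_cyclic (hG : ∀ H : Subgroup G, IsOpen (H : Set G) → H = ⊤) (ρ : G →* Module.End ℝ V) (e : V)
    (hc : Continuous fun g => ρ g e) (hcyc : Submodule.span ℝ (Set.range fun g => ρ g e) = ⊤)
    {W : Submodule ℝ V} (hW : W ≠ ⊤) : μ {g | ρ g e ∈ W} = 0 := by
  refine null_subspace μ ρ e hc (fun H hH g => ?_) hW
  rw [hG H hH, eq_top_iff, ← hcyc]
  refine Submodule.span_mono ?_
  rintro v ⟨k, rfl⟩
  refine ⟨k * g⁻¹, Subgroup.mem_top _, ?_⟩
  change ρ k e = ρ (k * g⁻¹) (ρ g e)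
  have h1 : ρ (k * g⁻¹ * g) e = ρ (k * g⁻¹) (ρ g e) := by rw [map_mul]; rfl
  rw [← h1, inv_mul_cancel_right]

/-- A nonzero linear form does not vanish almost everywhere on the orbit. -/
theorem null_form (hG : ∀ H : Subgroup G, IsOpen (H : Set G) → H = ⊤) (ρ : G →* Module.End ℝ V) (e : V)
    (hc : Continuous fun g => ρ g e) (hcyc : Submodule.span ℝ (Set.range fun g => ρ g e) = ⊤)
    {φ : V →ₗ[ℝ] ℝ} (hφ : φ ≠ 0) : μ {g | φ (ρ g e) = 0} = 0 := by
  have h := null_of_cyclic μ hG ρ e hc hcyc (W := LinearMap.ker φ) (fun h1 => hφ (LinearMap.ker_eq_top.1 h1))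
  simpa [LinearMap.mem_ker] using h

/-- A nonzero matrix coefficient of an irreducible representation does not vanish almost everywhere. -/
theorem null_coeff (hG : ∀ H : Subgroup G, IsOpen (H : Set G) → H = ⊤) (ρ : G →* Module.End ℝ V)
    (hc : ∀ v, Continuous fun g => ρ g v) (hirr : ∀ W : Submodule ℝ V, (∀ g, W ≤ W.comap (ρ g)) → W = ⊥ ∨ W = ⊤)
    {e : V} (he : e ≠ 0) {φ : V →ₗ[ℝ] ℝ} (hφ : φ ≠ 0) : μ {g | φ (ρ g e) = 0} = 0 := by
  refine null_form μ hG ρ e (hc e) ?_ hφ
  have hst : ∀ g, Submodule.span ℝ (Set.range fun g => ρ g e) ≤ (Submodule.span ℝ (Set.range fun g => ρ g e)).comap (ρ g) := by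
    intro g
    rw [Submodule.span_le]
    rintro v ⟨k, rfl⟩
    refine Submodule.subset_span ⟨g * k, ?_⟩
    change ρ (g * k) e = ρ g (ρ k e)
    rw [map_mul]
    rfl
  rcases hirr _ hst with h | h
  · exfalso
    apply he
    have h1 : ρ 1 e ∈ Submodule.span ℝ (Set.range fun g => ρ g e) := Submodule.subset_span ⟨1, rfl⟩
    rw [h, map_one] at h1
    simpa using h1
  · exact h

end Sub

end Pool.Agent.Helper63.FQ
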